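import Mathlib

set_option autoImplicit false

/-!
Two-dimensional projective algebras of plane sets.
-/

namespace Pool.Agent.Q216.Ulam

/-- The axis `X`. -/
def axisX : Set (ℝ × ℝ) := {p | p.2 = 0}

/-- The axis `Y`. -/
def axisY : Set (ℝ × ℝ) := {p | p.1 = 0}

/-- `π₁(S) = {(x, 0) : ∃ y, (x, y) ∈ S}`. -/
def pi₁ (S : Set (ℝ × ℝ)) : Set (ℝ × ℝ) := {p | p.2 = 0 ∧ ∃ y, (p.1, y) ∈ S}

/-- `π₂(S) = {(0, y) : ∃ x, (x, y) ∈ S}`. -/
def pi₂ (S : Set (ℝ × ℝ)) : Set (ℝ × ℝ) := {p | p.1 = 0 ∧ ∃ x, (x, p.2) ∈ S}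

/-- `A ⊗ B = {(x, y) : (x, 0) ∈ A, (0, y) ∈ B}`. -/
def tensor (A B : Set (ℝ × ℝ)) : Set (ℝ × ℝ) := {p | (p.1, 0) ∈ A ∧ (0, p.2) ∈ B}

/-- A projective algebra of plane sets. -/
structure IsProjAlg (F : Set (Set (ℝ × ℝ))) : Prop where
  nonempty : F.Nonempty
  compl : ∀ S ∈ F, Sᶜ ∈ F
  union : ∀ S ∈ F, ∀ T ∈ F, S ∪ T ∈ F
  pi₁ : ∀ S ∈ F, pi₁ S ∈ F
  pi₂ : ∀ S ∈ F, pi₂ S ∈ F
  tensor : ∀ A ∈ F, ∀ B ∈ F, A ⊆ axisX → B ⊆ axisY → tensor A B ∈ F

/-- `φ` is an isomorphism from the projective algebra `F` onto the projective algebra `G`. -/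
structure IsIso (φ : Set (ℝ × ℝ) → Set (ℝ × ℝ)) (F G : Set (Set (ℝ × ℝ))) : Prop where
  bij : Set.BijOn φ F G
  compl : ∀ S ∈ F, φ Sᶜ = (φ S)ᶜ
  union : ∀ S ∈ F, ∀ T ∈ F, φ (S ∪ T) = φ S ∪ φ T
  pi₁ : ∀ S ∈ F, φ (pi₁ S) = Ulam.pi₁ (φ S)
  pi₂ : ∀ S ∈ F, φ (pi₂ S) = Ulam.pi₂ (φ S)
  tensor : ∀ A ∈ F, ∀ B ∈ F, A ⊆ axisX → B ⊆ axisY → φ (tensor A B) = Ulam.tensor (φ A) (φ B)

/-- Two projective algebras are isomorphic. -/
def Isomorphic (F G : Set (Set (ℝ × ℝ))) : Prop := ∃ φ, IsIso φ F G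

/-- The projective algebra generated by a family of plane sets. -/
def generated (E : Set (Set (ℝ × ℝ))) : Set (Set (ℝ × ℝ)) :=
  ⋂₀ {F | IsProjAlg F ∧ E ⊆ F}

/-! ### Basic closure properties -/

theorem pi₁_univ : pi₁ Set.univ = axisX := by
  ext p; simp [pi₁, axisX]

theorem pi₂_univ : pi₂ Set.univ = axisY := by
  ext p; simp [pi₂, axisY]

theorem pi₁_sub (S : Set (ℝ × ℝ)) : pi₁ S ⊆ axisX := fun _ h => h.1

theorem pi₂_sub (S : Set (ℝ × ℝ)) : pi₂ S ⊆ axisY := fun _ h => h.1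

namespace IsProjAlg

variable {F : Set (Set (ℝ × ℝ))} (h : IsProjAlg F)

include h

theorem univ_mem : Set.univ ∈ F := by
  obtain ⟨S, hS⟩ := h.nonempty
  rw [← Set.union_compl_self S]
  exact h.union _ hS _ (h.compl _ hS)

theorem empty_mem : ∅ ∈ F := by
  rw [← Set.compl_univ]
  exact h.compl _ h.univ_mem

theorem inter {S T : Set (ℝ × ℝ)} (hS : S ∈ F) (hT : T ∈ F) : S ∩ T ∈ F := by
  have : S ∩ T = (Sᶜ ∪ Tᶜ)ᶜ := by rw [Set.compl_union, compl_compl, compl_compl]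
  rw [this]
  exact h.compl _ (h.union _ (h.compl _ hS) _ (h.compl _ hT))

theorem diff {S T : Set (ℝ × ℝ)} (hS : S ∈ F) (hT : T ∈ F) : S \ T ∈ F := by
  rw [Set.sdiff_eq]
  exact h.inter hS (h.compl _ hT)

theorem axisX_mem : axisX ∈ F := by
  rw [← pi₁_univ]; exact h.pi₁ _ h.univ_mem

theorem axisY_mem : axisY ∈ F := by
  rw [← pi₂_univ]; exact h.pi₂ _ h.univ_mem

theorem tensor_mem {A B : Set (ℝ × ℝ)} (hA : A ∈ F) (hB : B ∈ F) : Ulam.tensor A B ∈ F := by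
  have : Ulam.tensor A B = Ulam.tensor (A ∩ axisX) (B ∩ axisY) := by
    ext p; simp [Ulam.tensor, axisX, axisY]
  rw [this]
  exact h.tensor _ (h.inter hA h.axisX_mem) _ (h.inter hB h.axisY_mem) Set.inter_subset_right
    Set.inter_subset_right

end IsProjAlg

namespace IsIso

variable {F G : Set (Set (ℝ × ℝ))} {φ : Set (ℝ × ℝ) → Set (ℝ × ℝ)}
  (h : IsIso φ F G) (hF : IsProjAlg F)

include h hF

theorem map_univ : φ Set.univ = Set.univ := by
  obtain ⟨S, hS⟩ := hF.nonempty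
  rw [← Set.union_compl_self S, h.union _ hS _ (hF.compl _ hS), h.compl _ hS,
    Set.union_compl_self, Set.union_compl_self]

theorem map_empty : φ ∅ = ∅ := by
  rw [← Set.compl_univ, h.compl _ hF.univ_mem, h.map_univ hF]

theorem map_inter {S T : Set (ℝ × ℝ)} (hS : S ∈ F) (hT : T ∈ F) : φ (S ∩ T) = φ S ∩ φ T := by
  have : S ∩ T = (Sᶜ ∪ Tᶜ)ᶜ := by rw [Set.compl_union, compl_compl, compl_compl]
  rw [this, h.compl _ (hF.union _ (hF.compl _ hS) _ (hF.compl _ hT)),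
    h.union _ (hF.compl _ hS) _ (hF.compl _ hT), h.compl _ hS, h.compl _ hT,
    Set.compl_union, compl_compl, compl_compl]

theorem map_diff {S T : Set (ℝ × ℝ)} (hS : S ∈ F) (hT : T ∈ F) : φ (S \ T) = φ S \ φ T := by
  rw [Set.sdiff_eq, h.map_inter hF hS (hF.compl _ hT), h.compl _ hT, Set.sdiff_eq]

theorem map_axisX : φ axisX = axisX := by
  rw [← pi₁_univ, h.pi₁ _ hF.univ_mem, h.map_univ hF]

theorem map_axisY : φ axisY = axisY := by
  rw [← pi₂_univ, h.pi₂ _ hF.univ_mem, h.map_univ hF]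

theorem map_tensor {A B : Set (ℝ × ℝ)} (hA : A ∈ F) (hB : B ∈ F) :
    φ (Ulam.tensor A B) = Ulam.tensor (φ A) (φ B) := by
  have key : ∀ A B : Set (ℝ × ℝ), Ulam.tensor A B = Ulam.tensor (A ∩ axisX) (B ∩ axisY) := by
    intro A B; ext p; simp [Ulam.tensor, axisX, axisY]
  rw [key, h.tensor _ (hF.inter hA hF.axisX_mem) _ (hF.inter hB hF.axisY_mem)
    Set.inter_subset_right Set.inter_subset_right, h.map_inter hF hA hF.axisX_mem,
    h.map_inter hF hB hF.axisY_mem, h.map_axisX hF, h.map_axisY hF, ← key]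

theorem map_eq_empty {S : Set (ℝ × ℝ)} (hS : S ∈ F) : φ S = ∅ ↔ S = ∅ := by
  constructor
  · intro h1
    apply h.bij.injOn hS hF.empty_mem
    rw [h1, h.map_empty hF]
  · rintro rfl
    exact h.map_empty hF

end IsIso

theorem generated_isProjAlg (E : Set (Set (ℝ × ℝ))) : IsProjAlg (generated E) where
  nonempty := ⟨Set.univ, fun _ hF => hF.1.univ_mem⟩
  compl := fun S hS F hF => hF.1.compl S (hS F hF)
  union := fun S hS T hT F hF => hF.1.union S (hS F hF) T (hT F hF)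
  pi₁ := fun S hS F hF => hF.1.pi₁ S (hS F hF)
  pi₂ := fun S hS F hF => hF.1.pi₂ S (hS F hF)
  tensor := fun A hA B hB h1 h2 F hF => hF.1.tensor A (hA F hF) B (hB F hF) h1 h2

theorem subset_generated (E : Set (Set (ℝ × ℝ))) : E ⊆ generated E :=
  fun _ hS _ hF => hF.2 hS

theorem generated_subset {E F : Set (Set (ℝ × ℝ))} (hF : IsProjAlg F) (hE : E ⊆ F) :
    generated E ⊆ F := fun _ hS => hS F ⟨hF, hE⟩

/-! ### Terms -/

/-- Terms over a set of generators. -/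
inductive Term (ι : Type)
  | gen (i : ι) : Term ι
  | compl (t : Term ι) : Term ι
  | union (s t : Term ι) : Term ι
  | p₁ (t : Term ι) : Term ι
  | p₂ (t : Term ι) : Term ι
  | tensor (s t : Term ι) : Term ι
deriving Countable

/-- The value of a term. -/
def Term.eval {ι : Type} (S : ι → Set (ℝ × ℝ)) : Term ι → Set (ℝ × ℝ)
  | .gen i => S i
  | .compl t => (t.eval S)ᶜ
  | .union s t => s.eval S ∪ t.eval S
  | .p₁ t => Ulam.pi₁ (t.eval S)
  | .p₂ t => Ulam.pi₂ (t.eval S)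
  | .tensor s t => Ulam.tensor (s.eval S) (t.eval S)

theorem generated_eq_range {ι : Type} [Nonempty ι] (S : ι → Set (ℝ × ℝ)) :
    generated (Set.range S) = Set.range (fun t : Term ι => t.eval S) := by
  apply Set.Subset.antisymm
  · apply generated_subset
    · refine ⟨⟨_, Term.gen (Classical.arbitrary ι), rfl⟩, ?_, ?_, ?_, ?_, ?_⟩
      · rintro _ ⟨t, rfl⟩
        exact ⟨t.compl, rfl⟩
      · rintro _ ⟨t, rfl⟩ _ ⟨s, rfl⟩
        exact ⟨t.union s, rfl⟩
      · rintro _ ⟨t, rfl⟩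
        exact ⟨t.p₁, rfl⟩
      · rintro _ ⟨t, rfl⟩
        exact ⟨t.p₂, rfl⟩
      · rintro _ ⟨t, rfl⟩ _ ⟨s, rfl⟩ - -
        exact ⟨t.tensor s, rfl⟩
    · rintro _ ⟨i, rfl⟩
      exact ⟨Term.gen i, rfl⟩
  · rintro _ ⟨t, rfl⟩
    have hG := generated_isProjAlg (Set.range S)
    show t.eval S ∈ _
    induction t with
    | gen i => exact subset_generated _ ⟨i, rfl⟩
    | compl t ih => exact hG.compl _ ih
    | union s t ihs iht => exact hG.union _ ihs _ iht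
    | p₁ t ih => exact hG.pi₁ _ ih
    | p₂ t ih => exact hG.pi₂ _ ih
    | tensor s t ihs iht => exact hG.tensor_mem ihs iht

theorem generated_countable {ι : Type} [Nonempty ι] [Countable ι] (S : ι → Set (ℝ × ℝ)) :
    (generated (Set.range S)).Countable := by
  rw [generated_eq_range]
  exact Set.countable_range _

/-! ### The walk -/

/-- The sets `A₀ = X ∩ Y`, `Aₙ₊₁ = ` the points of `X` joined by `S \ X` to a point of `Y` that is
joined to a point of `Aₙ`. -/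
def walk (S : Set (ℝ × ℝ)) : ℕ → Set (ℝ × ℝ)
  | 0 => axisX ∩ axisY
  | n + 1 => pi₁ ((S \ axisX) ∩ tensor axisX (pi₂ ((S \ axisX) ∩ tensor (walk S n) axisY)))

/-- The test set for `n`. -/
def test (S : Set (ℝ × ℝ)) (n : ℕ) : Set (ℝ × ℝ) := S ∩ (walk S (n + 1) \ walk S n)

theorem walk_mem {F : Set (Set (ℝ × ℝ))} (hF : IsProjAlg F) {S : Set (ℝ × ℝ)} (hS : S ∈ F)
    (n : ℕ) : walk S n ∈ F := by
  induction n with
  | zero => exact hF.inter hF.axisX_mem hF.axisY_mem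
  | succ n ih =>
    have h1 := hF.diff hS hF.axisX_mem
    exact hF.pi₁ _ (hF.inter h1 (hF.tensor_mem hF.axisX_mem (hF.pi₂ _ (hF.inter h1
      (hF.tensor_mem ih hF.axisY_mem)))))

theorem map_walk {F G : Set (Set (ℝ × ℝ))} {φ : Set (ℝ × ℝ) → Set (ℝ × ℝ)} (h : IsIso φ F G)
    (hF : IsProjAlg F) {S : Set (ℝ × ℝ)} (hS : S ∈ F) (n : ℕ) :
    φ (walk S n) = walk (φ S) n := by
  induction n with
  | zero =>
    show φ (axisX ∩ axisY) = axisX ∩ axisY
    rw [h.map_inter hF hF.axisX_mem hF.axisY_mem, h.map_axisX hF, h.map_axisY hF]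
  | succ n ih =>
    have h1 := hF.diff hS hF.axisX_mem
    have h2 := hF.inter h1 (hF.tensor_mem (walk_mem hF hS n) hF.axisY_mem)
    have h3 := hF.inter h1 (hF.tensor_mem hF.axisX_mem (hF.pi₂ _ h2))
    show φ (pi₁ ((S \ axisX) ∩ tensor axisX (pi₂ ((S \ axisX) ∩ tensor (walk S n) axisY)))) =
      pi₁ ((φ S \ axisX) ∩ tensor axisX (pi₂ ((φ S \ axisX) ∩ tensor (walk (φ S) n) axisY)))
    rw [h.pi₁ _ h3, h.map_inter hF h1 (hF.tensor_mem hF.axisX_mem (hF.pi₂ _ h2)),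
      h.map_diff hF hS hF.axisX_mem, h.map_tensor hF hF.axisX_mem (hF.pi₂ _ h2), h.map_axisX hF,
      h.pi₂ _ h2, h.map_inter hF h1 (hF.tensor_mem (walk_mem hF hS n) hF.axisY_mem),
      h.map_diff hF hS hF.axisX_mem, h.map_tensor hF (walk_mem hF hS n) hF.axisY_mem,
      h.map_axisX hF, h.map_axisY hF, ih]

theorem map_test {F G : Set (Set (ℝ × ℝ))} {φ : Set (ℝ × ℝ) → Set (ℝ × ℝ)} (h : IsIso φ F G)
    (hF : IsProjAlg F) {S : Set (ℝ × ℝ)} (hS : S ∈ F) (n : ℕ) :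
    test (φ S) n = ∅ ↔ test S n = ∅ := by
  have h1 := walk_mem hF hS n
  have h2 := walk_mem hF hS (n + 1)
  have h3 := hF.diff h2 h1
  have h4 := h.map_eq_empty hF (hF.inter hS h3)
  rw [h.map_inter hF hS h3, h.map_diff hF h2 h1, map_walk h hF hS, map_walk h hF hS] at h4
  exact h4

/-- The plane set coding `T ⊆ ℕ`. -/
def code (T : Set ℕ) : Set (ℝ × ℝ) :=
  {p | ∃ n : ℕ, p = ((n : ℝ), (n : ℝ) + 1) ∨ p = ((n : ℝ) + 1, (n : ℝ) + 1) ∨
    (n ∈ T ∧ p = ((n : ℝ) + 1, 0))}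

theorem walk_code (T : Set ℕ) (n : ℕ) :
    walk (code T) n = {p | ∃ m : ℕ, m ≤ n ∧ p = ((m : ℝ), 0)} := by
  induction n with
  | zero =>
    ext ⟨x, y⟩
    simp only [walk, axisX, axisY, Set.mem_inter_iff, Set.mem_ofPred_eq, Nat.le_zero,
      exists_eq_left, Nat.cast_zero, Prod.mk.injEq]
    tauto
  | succ n ih =>
    have hB : pi₂ ((code T \ axisX) ∩ tensor (walk (code T) n) axisY) =
        {p | ∃ m : ℕ, m ≤ n ∧ p = (0, (m : ℝ) + 1)} := by
      rw [ih]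
      ext ⟨x, y⟩
      constructor
      · rintro ⟨h1, x', ⟨⟨k, hk⟩, h2⟩, ⟨m, hm, h3⟩, h4⟩
        simp only [Prod.mk.injEq, and_true] at h3
        change x = 0 at h1
        change ¬ y = 0 at h2
        subst h1
        rcases hk with hk | hk | ⟨-, hk⟩
        · simp only [Prod.mk.injEq] at hk
          refine ⟨k, ?_, by rw [hk.2]⟩
          have : (k : ℝ) = m := by rw [← hk.1]; exact h3
          have : k = m := by exact_mod_cast this
          omega
        · simp only [Prod.mk.injEq] at hk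
          refine ⟨k, ?_, by rw [hk.2]⟩
          have : ((k + 1 : ℕ) : ℝ) = m := by push_cast; rw [← hk.1]; exact h3
          have : k + 1 = m := by exact_mod_cast this
          omega
        · simp only [Prod.mk.injEq] at hk
          exact absurd hk.2 h2
      · rintro ⟨m, hm, h1⟩
        simp only [Prod.mk.injEq] at h1
        obtain ⟨rfl, rfl⟩ := h1
        refine ⟨rfl, (m : ℝ), ⟨⟨m, Or.inl rfl⟩, ?_⟩, ⟨m, hm, rfl⟩, rfl⟩
        show ¬ ((m : ℝ) + 1 = 0)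
        positivity
    show pi₁ ((code T \ axisX) ∩ tensor axisX
      (pi₂ ((code T \ axisX) ∩ tensor (walk (code T) n) axisY))) = _
    rw [hB]
    ext ⟨x, y⟩
    constructor
    · rintro ⟨h1, y', ⟨⟨k, hk⟩, h2⟩, -, ⟨m, hm, h3⟩⟩
      simp only [Prod.mk.injEq, true_and] at h3
      change y = 0 at h1
      change ¬ y' = 0 at h2
      subst h1
      rcases hk with hk | hk | ⟨-, hk⟩
      · simp only [Prod.mk.injEq] at hk
        have : (k : ℝ) + 1 = m + 1 := by rw [← hk.2]; exact h3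
        have : k = m := by
          have : (k : ℝ) = m := by linarith
          exact_mod_cast this
        exact ⟨k, by omega, by rw [hk.1]⟩
      · simp only [Prod.mk.injEq] at hk
        have : (k : ℝ) + 1 = m + 1 := by rw [← hk.2]; exact h3
        have : k = m := by
          have : (k : ℝ) = m := by linarith
          exact_mod_cast this
        exact ⟨k + 1, by omega, by rw [hk.1]; push_cast; rfl⟩
      · simp only [Prod.mk.injEq] at hk
        exact absurd hk.2 h2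
    · rintro ⟨m, hm, h1⟩
      simp only [Prod.mk.injEq] at h1
      obtain ⟨rfl, rfl⟩ := h1
      by_cases hm' : m ≤ n
      · refine ⟨rfl, (m : ℝ) + 1, ⟨⟨m, Or.inl rfl⟩, ?_⟩, rfl, ⟨m, hm', rfl⟩⟩
        show ¬ ((m : ℝ) + 1 = 0)
        positivity
      · have : m = n + 1 := by omega
        subst this
        refine ⟨rfl, (n : ℝ) + 1, ⟨⟨n, Or.inr (Or.inl (by push_cast; rfl))⟩, ?_⟩, rfl,
          ⟨n, le_rfl, rfl⟩⟩
        show ¬ ((n : ℝ) + 1 = 0)
        positivity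

theorem test_code (T : Set ℕ) (n : ℕ) : test (code T) n = ∅ ↔ n ∉ T := by
  have key : walk (code T) (n + 1) \ walk (code T) n = {((n : ℝ) + 1, 0)} := by
    rw [walk_code, walk_code]
    ext ⟨x, y⟩
    constructor
    · rintro ⟨⟨m, hm, h1⟩, h2⟩
      have : m = n + 1 := by
        by_contra h3
        exact h2 ⟨m, by omega, h1⟩
      subst this
      rw [h1]
      push_cast
      rfl
    · intro h1
      rw [Set.mem_singleton_iff] at h1
      rw [h1]
      refine ⟨⟨n + 1, le_rfl, by push_cast; rfl⟩, ?_⟩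
      rintro ⟨m, hm, h2⟩
      simp only [Prod.mk.injEq, and_true] at h2
      have : n + 1 = m := by exact_mod_cast h2
      omega
  unfold test
  rw [key]
  constructor
  · intro h hn
    have : ((n : ℝ) + 1, (0 : ℝ)) ∈ code T ∩ {((n : ℝ) + 1, (0 : ℝ))} :=
      ⟨⟨n, Or.inr (Or.inr ⟨hn, rfl⟩)⟩, rfl⟩
    rw [h] at this
    exact this
  · intro hn
    rw [Set.eq_empty_iff_forall_notMem]
    rintro ⟨x, y⟩ ⟨⟨k, hk⟩, h1⟩
    rw [Set.mem_singleton_iff] at h1
    simp only [Prod.mk.injEq] at h1 hk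
    obtain ⟨rfl, rfl⟩ := h1
    rcases hk with ⟨-, hk⟩ | ⟨-, hk⟩ | ⟨hT, hk, -⟩
    · have : (0 : ℝ) < (k : ℝ) + 1 := by positivity
      linarith
    · have : (0 : ℝ) < (k : ℝ) + 1 := by positivity
      linarith
    · have : (n : ℝ) = k := by linarith
      have : n = k := by exact_mod_cast this
      exact hn (this ▸ hT)

/-- The image of the generator determines the coded set. -/
theorem code_determined {T : Set ℕ} {F G : Set (Set (ℝ × ℝ))} {φ : Set (ℝ × ℝ) → Set (ℝ × ℝ)}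
    (h : IsIso φ F G) (hF : IsProjAlg F) (hS : code T ∈ F) :
    T = {n | test (φ (code T)) n ≠ ∅} := by
  ext n
  rw [Set.mem_ofPred_eq, Ne, map_test h hF hS, test_code, not_not]

end Pool.Agent.Q216.Ulam
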